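import Pool.Agent.Helper36.CK.Val
import Pool.Agent.Helper8.TS.OL1ArD

/-!
# The numbers of `OL1Ar` as expressions (column `a`)
-/

set_option autoImplicit false
set_option linter.all false

namespace Pool.Agent.Helper36.TZ.Ar

open Pool.Agent.Helper83.Cert Pool.Agent.Helper83.TS Pool.Agent.Helper36.CK Pool.Agent.Helper8.TS.OL1Ar

/-- `10000` times `np` -/
noncomputable def npE (a : Ex) : Ex :=
  .sub (.add (.mul (.c 4) (.c (1721))) (.mul (.c (1333)) a)) (.mul (.c (5759)) (.mul a a))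

theorem r_np {y : ℕ → ℝ} {a : Ex} {u : ℝ} (h0 : R y a 1 u) :
    R y (npE a) 10000 (np u) := by
  unfold R at *
  simp only [Nat.cast_one, one_mul] at *
  simp only [npE, exadd, exsub, exmul, exc, h0, np]
  push_cast
  ring

/-- `10000` times `nr` -/
noncomputable def nrE (a : Ex) : Ex :=
  .sub (.sub (.c (8079)) (.mul (.c (1453)) a)) (.mul (.c (3719)) (.mul a a))

theorem r_nr {y : ℕ → ℝ} {a : Ex} {u : ℝ} (h0 : R y a 1 u) :
    R y (nrE a) 10000 (nr u) := by
  unfold R at *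
  simp only [Nat.cast_one, one_mul] at *
  simp only [nrE, exadd, exsub, exmul, exc, h0, nr]
  push_cast
  ring

/-- `10000` times `ns` -/
noncomputable def nsE (a : Ex) : Ex :=
  .sub (.sub (.c (8167)) (.mul (.c (2063)) a)) (.mul (.c (2453)) (.mul a a))

theorem r_ns {y : ℕ → ℝ} {a : Ex} {u : ℝ} (h0 : R y a 1 u) :
    R y (nsE a) 10000 (ns u) := by
  unfold R at *
  simp only [Nat.cast_one, one_mul] at *
  simp only [nsE, exadd, exsub, exmul, exc, h0, ns]
  push_cast
  ring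

/-- `10000` times `kpr` -/
noncomputable def kprE (a b : Ex) : Ex :=
  .add (.sub (.sub (.mul (.c 250) (.c (21))) (.mul (.c (5527)) a)) (.mul (.c (5227)) b)) (.mul (.c (7099)) (.mul a b))

theorem r_kpr {y : ℕ → ℝ} {a b : Ex} {u v : ℝ} (h0 : R y a 1 u) (h1 : R y b 1 v) :
    R y (kprE a b) 10000 (kpr u v) := by
  unfold R at *
  simp only [Nat.cast_one, one_mul] at *
  simp only [kprE, exadd, exsub, exmul, exc, h0, h1, kpr]
  push_cast
  ring

/-- `10000` times `kps` -/
noncomputable def kpsE (a b : Ex) : Ex :=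
  .add (.sub (.mul (.c 2) (.sub (.c (2669)) (.mul (.c 2) (.mul (.c (1263)) a)))) (.mul (.c (4393)) b)) (.mul (.c (5819)) (.mul a b))

theorem r_kps {y : ℕ → ℝ} {a b : Ex} {u v : ℝ} (h0 : R y a 1 u) (h1 : R y b 1 v) :
    R y (kpsE a b) 10000 (kps u v) := by
  unfold R at *
  simp only [Nat.cast_one, one_mul] at *
  simp only [kpsE, exadd, exsub, exmul, exc, h0, h1, kps]
  push_cast
  ring

/-- `10000` times `krs` -/
noncomputable def krsE (a b : Ex) : Ex :=
  .add (.sub (.sub (.c (3421)) (.mul (.c 5) (.mul (.c (1137)) a))) (.mul (.c 5) (.mul (.c (1137)) b))) (.mul (.c 5) (.mul (.c (2827)) (.mul a b)))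

theorem r_krs {y : ℕ → ℝ} {a b : Ex} {u v : ℝ} (h0 : R y a 1 u) (h1 : R y b 1 v) :
    R y (krsE a b) 10000 (krs u v) := by
  unfold R at *
  simp only [Nat.cast_one, one_mul] at *
  simp only [krsE, exadd, exsub, exmul, exc, h0, h1, krs]
  push_cast
  ring

/-- `10000` times `mpr` -/
noncomputable def mprE (a b : Ex) : Ex :=
  .add (.sub (.sub (.c (1921)) (.mul (.c 16) (.mul (.c (58)) a))) (.mul (.c 10) (.mul (.c (203)) b))) (.mul (.c (1619)) (.mul a b))

theorem r_mpr {y : ℕ → ℝ} {a b : Ex} {u v : ℝ} (h0 : R y a 1 u) (h1 : R y b 1 v) :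
    R y (mprE a b) 10000 (mpr u v) := by
  unfold R at *
  simp only [Nat.cast_one, one_mul] at *
  simp only [mprE, exadd, exsub, exmul, exc, h0, h1, mpr]
  push_cast
  ring

/-- `10000` times `mrs` -/
noncomputable def mrsE (a b : Ex) : Ex :=
  .add (.sub (.mul (.c 2) (.sub (.mul (.c 2) (.c (77))) (.mul (.c (253)) a))) (.mul (.c (507)) b)) (.mul (.c 16) (.mul (.c (96)) (.mul a b)))

theorem r_mrs {y : ℕ → ℝ} {a b : Ex} {u v : ℝ} (h0 : R y a 1 u) (h1 : R y b 1 v) :
    R y (mrsE a b) 10000 (mrs u v) := by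
  unfold R at *
  simp only [Nat.cast_one, one_mul] at *
  simp only [mrsE, exadd, exsub, exmul, exc, h0, h1, mrs]
  push_cast
  ring

/-- `10000` times `Wa` -/
noncomputable def WaE (a b c : Ex) : Ex :=
  .sub (.add (.add (.add (.add (.sub (.add (.add (.add (.c (5709)) (.mul (.c (5457)) a)) (.mul (.c (1009)) b)) (.mul (.c 8) (.mul (.c (109)) c))) (.mul (.c (3523)) (.mul a a))) (.mul (.c 10) (.mul (.c (359)) (.mul b b)))) (.mul (.c (3763)) (.mul c c))) (.mul (.c 2) (.mul (.c (1389)) (.mul a b)))) (.mul (.c 8) (.mul (.c (323)) (.mul a c)))) (.mul (.c (331)) (.mul b c))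

theorem r_Wa {y : ℕ → ℝ} {a b c : Ex} {u v w : ℝ} (h0 : R y a 1 u) (h1 : R y b 1 v) (h2 : R y c 1 w) :
    R y (WaE a b c) 10000 (Wa u v w) := by
  unfold R at *
  simp only [Nat.cast_one, one_mul] at *
  simp only [WaE, exadd, exsub, exmul, exc, h0, h1, h2, Wa]
  push_cast
  ring

/-- `10000` times `sg` -/
noncomputable def sgE (a : Ex) : Ex :=
  .sub (.c (3373)) (.mul (.c 2) (.mul (.c (1283)) a))

theorem r_sg {y : ℕ → ℝ} {a : Ex} {u : ℝ} (h0 : R y a 1 u) :
    R y (sgE a) 10000 (sg u) := by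
  unfold R at *
  simp only [Nat.cast_one, one_mul] at *
  simp only [sgE, exadd, exsub, exmul, exc, h0, sg]
  push_cast
  ring

end Pool.Agent.Helper36.TZ.Ar
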