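import Pool.Agent.Helper36.TZ.BrD1
import Pool.Agent.Helper36.TZ.BrD2
import Pool.Agent.Helper36.TZ.BrD3
import Pool.Agent.Helper83.OL.Colp
import Pool.Agent.Helper83.OL.Colr
import Pool.Agent.Helper83.OL.Cols
import Pool.Agent.Helper78.TS.MGlue

/-!
# Piece `OL1Br`: the column of the low class
-/

set_option autoImplicit false

namespace Pool.Agent.Helper36.TZ.Br

open Pool.Agent.Helper83.TS Pool.Agent.Helper78.TS Pool.Agent.Helper83.OL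

/-- **All conditions of the column of the low class**, rows `p`, `r`, `s`. -/
theorem colN {x y z : ℝ} (x0 : 0 ≤ x) (x1 : x ≤ 3 / 5) (y0 : 0 ≤ y)
    (y1 : y ≤ 3 / 5) (z0 : 0 ≤ z) (z1 : z ≤ 3 / 5) (hs : x + y + z ≤ 9 / 10) :
    Neg.ColN (np x + sr x) (nr y) (ns z) (kpr x y) (kps x z) (krs y z) (lpr x y) (lps x z) (lrs y z) (wa x y z) x y z where
  t := colT_of_col (colp ⟨x0, y0, z0, x1, y1, z1⟩) (colr ⟨y0, x0, z0, y1, x1, z1⟩)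
    (cols ⟨z0, x0, y0, z1, x1, y1⟩)
  hxy := (cols ⟨z0, x0, y0, z1, x1, y1⟩).hκ
  hxz := (colr ⟨y0, x0, z0, y1, x1, z1⟩).hκ
  hyz := (colp ⟨x0, y0, z0, x1, y1, z1⟩).hκ
  xy := cd_prs x0 x1 y0 y1 z0 z1 hs
  xz := cd_psr x0 x1 y0 y1 z0 z1 hs
  yx := cd_rps x0 x1 y0 y1 z0 z1 hs
  yz := cd_rsp x0 x1 y0 y1 z0 z1 hs
  zx := cd_spr x0 x1 y0 y1 z0 z1 hs
  zy := cd_srp x0 x1 y0 y1 z0 z1 hs

end Pool.Agent.Helper36.TZ.Br
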