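import Pool.Agent.Helper36.TZ.BsD1
import Pool.Agent.Helper36.TZ.BsD2
import Pool.Agent.Helper36.TZ.BsD3
import Pool.Agent.Helper36.TZ.BsCp
import Pool.Agent.Helper36.TZ.BsCr
import Pool.Agent.Helper36.TZ.BsCs
import Pool.Agent.Helper78.TS.MGlue

/-!
# Piece `OL1Bs`: the column of the low class
-/

set_option autoImplicit false

namespace Pool.Agent.Helper36.TZ.Bs

open Pool.Agent.Helper83.TS Pool.Agent.Helper78.TS Pool.Agent.Helper11.TS.OL1Bs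

/-- **All conditions of the column of the low class**, rows `p`, `r`, `s`. -/
theorem colN {x y z : ℝ} (x0 : 0 ≤ x) (x1 : x ≤ 3 / 5) (y0 : 0 ≤ y)
    (y1 : y ≤ 3 / 5) (z0 : 0 ≤ z) (z1 : z ≤ 3 / 5) (hs : x + y + z ≤ 9 / 10) :
    Neg.ColN (np x + sg x) (nr y) (ns z) (kpr x y) (kps x z) (krs y z) (kpr x y) (kps x z - mps x z) (krs y z - mrs y z) (Wa x y z) x y z where
  t := colT_of_col (col_p x0 x1 y0 y1 z0 z1 hs) (col_r x0 x1 y0 y1 z0 z1 hs) (col_s x0 x1 y0 y1 z0 z1 hs)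
  hxy := (col_s x0 x1 y0 y1 z0 z1 hs).hκ
  hxz := (col_r x0 x1 y0 y1 z0 z1 hs).hκ
  hyz := (col_p x0 x1 y0 y1 z0 z1 hs).hκ
  xy := cd_prs x0 x1 y0 y1 z0 z1 hs
  xz := cd_psr x0 x1 y0 y1 z0 z1 hs
  yx := cd_rps x0 x1 y0 y1 z0 z1 hs
  yz := cd_rsp x0 x1 y0 y1 z0 z1 hs
  zx := cd_spr x0 x1 y0 y1 z0 z1 hs
  zy := cd_srp x0 x1 y0 y1 z0 z1 hs

end Pool.Agent.Helper36.TZ.Bs
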